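import Pool.Agent.Helper93.HZ.Spec3

/-!
# HZ: honest and deep vertices of a free crossing edge (module HON)
-/

set_option autoImplicit false

open MulAction Pointwise

namespace Pool.Agent.Helper93.HZ

open Ctx

section fields

variable {U : Type} {T : SimpleGraph U} {A B : U → U}

theorem hon_symm {u : U} (h : OnI A B u) : OnI B A u := fun h1 => by
  rw [h1]; exact h h1.symm

/-- one step along `B` inside `I(A,B)` -/
theorem hon_step (hA : IsField T A) (hB : IsField T B) {u : U} (h : OnI A B u) (hu : B u ≠ u) :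
    OnI A B (B u) ∧ A (B u) = u := by
  have hadj : T.Adj u (B u) := by
    rcases hB.1 u with h1 | h1
    · exact absurd h1 hu
    · exact h1
  have h1 : A u ≠ B u := by
    intro h2
    apply hu
    rw [← h2]
    exact h h2
  have h2 : A (B u) = u := by
    by_contra h3
    exact h1 ((hA.2 u (B u) hadj).2 h3)
  refine ⟨?_, h2⟩
  intro h3
  exfalso
  have h4 := (hB.2 u (B u) hadj).1 rfl
  exact h4 (by rw [← h3, h2])

theorem hon_iter (hA : IsField T A) (hB : IsField T B) {u : U} (h : OnI A B u) (k : ℕ) :
    OnI A B (B^[k] u) := by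
  induction k with
  | zero => exact h
  | succ k ih =>
    rw [Function.iterate_succ_apply']
    by_cases h1 : B (B^[k] u) = B^[k] u
    · rw [h1]; exact ih
    · exact (hon_step hA hB ih h1).1

/-- reversal -/
theorem hon_rev (hA : IsField T A) (hB : IsField T B) {u : U} (h : OnI A B u) (k : ℕ) :
    ∃ j : ℕ, A^[j] (B^[k] u) = u := by
  induction k with
  | zero => exact ⟨0, rfl⟩
  | succ k ih =>
    obtain ⟨j, hj⟩ := ih
    rw [Function.iterate_succ_apply']
    by_cases h1 : B (B^[k] u) = B^[k] u
    · rw [h1]; exact ⟨j, hj⟩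
    · refine ⟨j + 1, ?_⟩
      rw [Function.iterate_succ_apply, (hon_step hA hB (hon_iter hA hB h k) h1).2]
      exact hj

/-- if `B` has no fixed vertex the reversal is exact -/
theorem hon_back (hA : IsField T A) (hB : IsField T B) {u : U} (h : OnI A B u)
    (hB0 : ∀ w, B w ≠ w) (k : ℕ) : A (B^[k + 1] u) = B^[k] u := by
  rw [Function.iterate_succ_apply']
  exact (hon_step hA hB (hon_iter hA hB h k) (hB0 _)).2

/-- a field never returns -/
theorem hon_noreturn (hTA : ST_TFA) (hT : T.IsTree) (hB : IsField T B) {u : U} {m : ℕ}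
    (hm : 0 < m) (h : B^[m] u = u) : B u = u := by
  by_contra hne
  obtain ⟨F, hF, hFu⟩ := (hTA U T hT).1 u
  have hon : OnI F B u := fun _ => hFu
  -- `B` moves at all iterates
  have key : ∀ k : ℕ, B (B^[k] u) ≠ B^[k] u := by
    intro k hk
    -- then all later iterates are equal, in particular those at multiples of `m`
    have h1 : ∀ j : ℕ, B^[k + j] u = B^[k] u := by
      intro j
      induction j with
      | zero => rfl
      | succ j ih =>
        rw [← add_assoc, Function.iterate_succ_apply', ih, hk]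
    have h2 : ∀ j : ℕ, B^[m * j] u = u := by
      intro j
      induction j with
      | zero => rfl
      | succ j ih =>
        rw [Nat.mul_succ, Function.iterate_add_apply, h, ih]
    have h3 : k ≤ m * k := Nat.le_mul_of_pos_left k hm
    have h4 := h1 (m * k - k)
    rw [Nat.add_sub_cancel' h3, h2] at h4
    rw [← h4] at hk
    exact hne hk
  obtain ⟨n, rfl⟩ : ∃ n, m = n + 1 := ⟨m - 1, by omega⟩
  have h5 : F (B^[n + 1] u) = B^[n] u := by
    rw [Function.iterate_succ_apply']
    exact (hon_step hF hB (hon_iter hF hB hon n) (key n)).2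
  rw [h, hFu] at h5
  apply key n
  have h6 : B (B^[n] u) = u := by
    rw [← Function.iterate_succ_apply' B n u]
    exact h
  rw [h6]
  exact h5

theorem hon_antisymm (hTA : ST_TFA) (hT : T.IsTree) (hB : IsField T B) {u w : U} {k l : ℕ}
    (h1 : B^[k] u = w) (h2 : B^[l] w = u) : u = w := by
  by_cases hk : k = 0
  · rw [hk] at h1; exact h1
  have h3 : B^[l + k] u = u := by
    rw [Function.iterate_add_apply, h1, h2]
  have h4 := hon_noreturn hTA hT hB (by omega) h3
  rw [← h1]
  exact (Function.iterate_fixed h4 k).symm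

end fields

/-- HON -/
theorem st_HON (hTA : ST_TFA) (hTB : ST_TFB) (hTC : ST_TFC) : ST_HON := by
  intro G _ X x y hxy
  obtain ⟨hadj, hfr, hne⟩ := hxy
  set A := X.P.N x with hAdef
  set B := X.P.N y with hBdef
  set p := X.Q.Q x y with hp
  set q := X.Q.Q y x with hq
  have hA : IsField X.D.T A := X.P.fN x
  have hB : IsField X.D.T B := X.P.fN y
  have hadj' : X.K.adj y x := X.K.symm _ _ hadj
  have hfr' : Fr X.K y x := hfr.symm
  have hne' : X.P.N y ≠ X.P.N x := fun h => hne h.symm
  have hpell : EllV X.D X.K x → A p = p := fun h => X.Q.ell x y hadj h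
  have hqell : EllV X.D X.K y → B q = q := fun h => X.Q.ell y x hadj' h
  have hphyp : ¬ EllV X.D X.K x → OnI A B p ∧ A p ≠ X.P.M x p :=
    fun h => X.Q.hyp x y hadj hfr h hne
  have hqhyp : ¬ EllV X.D X.K y → OnI B A q ∧ B q ≠ X.P.M y q :=
    fun h => X.Q.hyp y x hadj' hfr' h hne'
  have hpI : OnI A B p := by
    by_cases h : EllV X.D X.K x
    · exact fun _ => hpell h
    · exact (hphyp h).1
  have hqI : OnI A B q := by
    by_cases h : EllV X.D X.K y
    · exact fun h1 => by rw [h1]; exact hqell h
    · exact hon_symm (hqhyp h).1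
  have hTC' := (hTC _ X.D.T X.D.tree A B hA hB).1
  -- the center claim
  have hcen : ∀ z c, X.K.tri x y z → IsCenter A B (X.P.N z) c →
      (∃ k : ℕ, B^[k] p = c) ∧ ∃ k : ℕ, A^[k] q = c := by
    intro z c htri hc
    set C := X.P.N z with hCdef
    have hC : IsField X.D.T C := X.P.fN z
    have hcI : OnI A B c := hc.1
    constructor
    · obtain ⟨k, hk | hk⟩ := hTC' p c hpI hcI
      · by_cases hell : EllV X.D X.K x
        · refine ⟨0, ?_⟩
          rw [hk, Function.iterate_fixed (hpell hell) k]
          rfl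
        · have hT1 := X.good.T1 x y z hell htri hfr hne
          rcases Nat.eq_zero_or_pos k with h0 | h0
          · refine ⟨0, ?_⟩
            rw [hk, h0]; rfl
          · exfalso
            obtain ⟨j, rfl⟩ : ∃ j, k = j + 1 := ⟨k - 1, by omega⟩
            have hA0 := (X.P.hyp x hell).1
            have e1 : B (A^[j + 1] p) = A^[j] p := hon_back hB hA (hon_symm hpI) hA0 j
            have hpI' : OnI C A p := by
              intro h1
              exfalso
              apply hT1.2
              have h2 : A p = B p := by rw [← h1]; exact hT1.1.symm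
              rw [← hp, ← hBdef, ← h2]
              exact hpI h2
            have e2 : C (A^[j + 1] p) = A^[j] p := hon_back hC hA hpI' hA0 j
            rw [← hk] at e1 e2
            have h3 := hc.2.1 (by rw [e1, e2])
            rw [e1, hk, Function.iterate_succ_apply'] at h3
            exact hA0 _ h3.symm
      · exact ⟨k, hk.symm⟩
    · obtain ⟨k, hk | hk⟩ := hTC' q c hqI hcI
      · exact ⟨k, hk.symm⟩
      · by_cases hell : EllV X.D X.K y
        · refine ⟨0, ?_⟩
          rw [hk, Function.iterate_fixed (hqell hell) k]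
          rfl
        · have hT1 := X.good.T1 y x z hell (X.K.tri_swap _ _ _ htri) hfr' hne'
          rcases Nat.eq_zero_or_pos k with h0 | h0
          · refine ⟨0, ?_⟩
            rw [hk, h0]; rfl
          · exfalso
            obtain ⟨j, rfl⟩ : ∃ j, k = j + 1 := ⟨k - 1, by omega⟩
            have hB0 := (X.P.hyp y hell).1
            have e1 : A (B^[j + 1] q) = B^[j] q := hon_back hA hB hqI hB0 j
            have hqI' : OnI C B q := by
              intro h1
              exfalso
              apply hT1.2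
              have h2 : A q = B q := by
                rw [← h1]; exact hT1.1
              rw [← hq, ← hAdef]
              exact hqI h2
            have e2 : C (B^[j + 1] q) = B^[j] q := hon_back hC hB hqI' hB0 j
            rw [← hk] at e1 e2
            have h3 := hc.2.2 (by rw [e1, e2])
            rw [e1, hk, Function.iterate_succ_apply'] at h3
            exact hB0 _ h3.symm
  -- `p ≤ q`
  obtain ⟨m, hm⟩ : ∃ m : ℕ, B^[m] p = q := by
    have hfin : Finite ↥(stabilizer G x ⊓ stabilizer G y) := by
      have : ∀ g : ↥(stabilizer G x ⊓ stabilizer G y), g = 1 := by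
        intro g
        apply Subtype.ext
        exact hfr g.1 (mem_stabilizer_iff.1 g.2.1) (mem_stabilizer_iff.1 g.2.2)
      have hs : Subsingleton ↥(stabilizer G x ⊓ stabilizer G y) :=
        ⟨fun a b => by rw [this a, this b]⟩
      infer_instance
    obtain ⟨z, hz⟩ := X.red.R1 x y hadj hfin
    have a1 : X.K.adj y z := X.K.tri_adj _ _ _ (X.K.tri_rot _ _ _ hz)
    have a2 : X.K.adj x z := X.K.symm _ _ (X.K.tri_adj _ _ _ (X.K.tri_rot _ _ _
      (X.K.tri_rot _ _ _ hz)))
    obtain ⟨c, hc, _⟩ := hTB _ X.D.T X.D.tree A B (X.P.N z) hA hB (X.P.fN z)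
      (X.nd x y hadj) (X.nd y z a1) (X.nd x z a2)
    obtain ⟨⟨k, hk⟩, l, hl⟩ := hcen z c hz hc
    obtain ⟨j, hj⟩ := hon_rev hB hA (hon_symm hqI) l
    rw [hl] at hj
    refine ⟨j + k, ?_⟩
    rw [Function.iterate_add_apply, hk, hj]
  have hA0 : ¬ EllV X.D X.K x → ∀ u, A u ≠ u := fun h => (X.P.hyp x h).1
  have hB0 : ¬ EllV X.D X.K y → ∀ u, B u ≠ u := fun h => (X.P.hyp y h).1
  -- a point after `p` is not deep at `x`
  have h2 : ∀ u, (∃ k : ℕ, B^[k] p = u) → ¬ X.Dp x y u := by
    rintro u ⟨k, hk⟩ ⟨hell, l, hl⟩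
    obtain ⟨j, hj⟩ := hon_rev hB hA (hon_symm hpI) (l + 1)
    rw [← hl] at hj
    have h3 := hon_antisymm hTA X.D.tree hB hk hj
    rw [← h3] at hl
    exact hA0 hell p (hon_noreturn hTA X.D.tree hA (Nat.succ_pos l) hl.symm)
  have hdeepx : ∀ u, X.Dp x y u → ∃ k : ℕ, u = A^[k + 1] p ∧ ¬ EllV X.D X.K x := by
    rintro u ⟨h, k, hk⟩
    exact ⟨k, hk, h⟩
  -- next honest vertex
  have h11 : ∀ u, X.Hon x y u → B u ≠ u → u ≠ q → X.Hon x y (B u) := by
    rintro u ⟨⟨k, hk⟩, j, hj⟩ hu huq
    refine ⟨⟨k + 1, ?_⟩, ?_⟩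
    · show B^[k + 1] p = B u
      rw [Function.iterate_succ_apply', hk]
    · have hj' : A^[j] q = u := hj
      obtain ⟨i, hi⟩ := hon_rev hB hA (hon_symm hqI) j
      rw [hj'] at hi
      have hi0 : i ≠ 0 := by
        intro h0
        rw [h0] at hi
        exact huq hi
      obtain ⟨i', rfl⟩ : ∃ i', i = i' + 1 := ⟨i - 1, by omega⟩
      rw [Function.iterate_succ_apply] at hi
      have huI : OnI A B u := by
        rw [← hk]
        exact hon_iter hA hB hpI k
      have hBuI := (hon_step hA hB huI hu).1
      obtain ⟨j2, hj2⟩ := hon_rev hA hB hBuI i'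
      rw [hi] at hj2
      exact ⟨j2, hj2⟩
  refine ⟨?_, fun u hu => h2 u hu.1, ?_, ?_, ?_, ?_, ?_, ?_, ?_, ?_, h11⟩
  · intro u
    constructor
    · intro hu
      obtain ⟨k, hk | hk⟩ := hTC' p u hpI hu
      · rcases Nat.eq_zero_or_pos k with h0 | h0
        · -- `u = p`
          left
          have hup : u = p := by rw [hk, h0]; rfl
          rw [hup]
          refine ⟨⟨0, rfl⟩, ?_⟩
          obtain ⟨j, hj⟩ := hon_rev hA hB hpI m
          rw [hm] at hj
          exact ⟨j, hj⟩
        · by_cases hell : EllV X.D X.K x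
          · left
            have hup : u = p := by rw [hk, Function.iterate_fixed (hpell hell) k]
            rw [hup]
            refine ⟨⟨0, rfl⟩, ?_⟩
            obtain ⟨j, hj⟩ := hon_rev hA hB hpI m
            rw [hm] at hj
            exact ⟨j, hj⟩
          · right; left
            exact ⟨hell, k - 1, by rw [Nat.sub_add_cancel h0]; exact hk⟩
      · obtain ⟨l, hl | hl⟩ := hTC' q u hqI hu
        · left
          exact ⟨⟨k, hk.symm⟩, l, hl.symm⟩
        · rcases Nat.eq_zero_or_pos l with h0 | h0
          · left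
            exact ⟨⟨k, hk.symm⟩, 0, by rw [hl, h0]; rfl⟩
          · by_cases hell : EllV X.D X.K y
            · left
              refine ⟨⟨k, hk.symm⟩, 0, ?_⟩
              rw [hl, Function.iterate_fixed (hqell hell) l]
              rfl
            · right; right
              exact ⟨hell, l - 1, by rw [Nat.sub_add_cancel h0]; exact hl⟩
    · rintro (h | h | h)
      · obtain ⟨⟨k, hk⟩, _⟩ := h
        rw [← hk]
        exact hon_iter hA hB hpI k
      · obtain ⟨_, k, hk⟩ := h
        rw [hk]
        exact hon_symm (hon_iter hB hA (hon_symm hpI) (k + 1))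
      · obtain ⟨_, k, hk⟩ := h
        rw [hk]
        exact hon_iter hA hB hqI (k + 1)
  · rintro u hu ⟨_, l, hl⟩
    have hl' : u = B^[l + 1] q := hl
    refine h2 u ⟨l + 1 + m, ?_⟩ hu
    rw [Function.iterate_add_apply, hm, ← hl']
  · intro u
    exact and_comm
  · refine ⟨⟨0, rfl⟩, ?_⟩
    obtain ⟨j, hj⟩ := hon_rev hA hB hpI m
    rw [hm] at hj
    exact ⟨j, hj⟩
  · apply Set.Finite.subset ((Set.finite_Iic m).image (fun k => B^[k] p))
    rintro u ⟨⟨k, hk⟩, j, hj⟩
    have hk' : B^[k] p = u := hk
    have hj' : A^[j] q = u := hj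
    by_cases hkm : k ≤ m
    · exact ⟨k, hkm, hk'⟩
    · refine ⟨m, Set.mem_Iic.2 le_rfl, ?_⟩
      show B^[m] p = u
      have h3 : B^[k - m] q = u := by
        rw [← hm, ← Function.iterate_add_apply, Nat.sub_add_cancel (by omega), hk']
      obtain ⟨i, hi⟩ := hon_rev hB hA (hon_symm hqI) j
      rw [hj'] at hi
      rw [hm]
      exact hon_antisymm hTA X.D.tree hB h3 hi
  · intro z c htri hc
    exact hcen z c htri hc
  · intro z u htri hu
    obtain ⟨k, hk, hell⟩ := hdeepx u hu
    have hT1 := X.good.T1 x y z hell htri hfr hne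
    have hC : IsField X.D.T (X.P.N z) := X.P.fN z
    have hpI' : OnI (X.P.N z) A p := by
      intro h1
      exfalso
      apply hT1.2
      have h2 : A p = B p := by rw [← h1]; exact hT1.1.symm
      rw [← hp, ← hBdef, ← h2]
      exact hpI h2
    have e1 : B u = A^[k] p := by rw [hk]; exact hon_back hB hA (hon_symm hpI) (hA0 hell) k
    have e2 : X.P.N z u = A^[k] p := by rw [hk]; exact hon_back hC hA hpI' (hA0 hell) k
    have e3 : A (A^[k] p) = u := by rw [hk, Function.iterate_succ_apply']
    refine ⟨by rw [e1, e2], ?_, ?_⟩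
    · rw [e1]
      intro h3
      rw [h3] at e3
      exact hA0 hell u e3
    · rw [e1]
      intro h3
      have hadj2 : X.D.T.Adj (A^[k] p) u := by
        rcases hA.1 (A^[k] p) with h4 | h4
        · exact absurd h4 (hA0 hell _)
        · rwa [e3] at h4
      exact ((hA.2 _ _ hadj2).1 e3) h3
  · intro u hu
    obtain ⟨k, hk, hell⟩ := hdeepx u hu
    have hM : IsField X.D.T (X.P.M x) := X.P.fM x
    have hpM : OnI (X.P.M x) A p := fun h => absurd h.symm (hphyp hell).2
    have e1 : B u = A^[k] p := by rw [hk]; exact hon_back hB hA (hon_symm hpI) (hA0 hell) k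
    have e2 : X.P.M x u = A^[k] p := by rw [hk]; exact hon_back hM hA hpM (hA0 hell) k
    have e3 : A (A^[k] p) = u := by rw [hk, Function.iterate_succ_apply']
    refine ⟨?_, by rw [e1, e2]⟩
    rw [e2]
    intro h3
    have hadj2 : X.D.T.Adj (A^[k] p) u := by
      rcases hA.1 (A^[k] p) with h4 | h4
      · exact absurd h4 (hA0 hell _)
      · rwa [e3] at h4
    exact ((hA.2 _ _ hadj2).1 e3) h3
  · intro z w htri h1 h2' h3 h4
    apply h11 w h4 h2'
    intro hwq
    rw [hwq] at h1 h2' h3
    by_cases hell : EllV X.D X.K y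
    · exact h2' (hqell hell)
    · have hT1 := X.good.T1 y x z hell (X.K.tri_swap _ _ _ htri) hfr' hne'
      apply h3
      rw [h1]
      exact hT1.1

end Pool.Agent.Helper93.HZ
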